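import Pool.Agent.W221.NS.Stm4
import Pool.Agent.W382.ME.COUNT2

set_option autoImplicit false

open MeasureTheory Set Metric Filter
open scoped ContDiff Topology ENNReal Pointwise

namespace Pool.Agent.W108.MH

open H459R3.NS W221.NS W382.ME

/-- The number of separated singular points of a solution with a force. -/
theorem t_COUNT3 (h1 : S_LOCAL3) (h2 : S_MOLL2) (h3 : S_FLOWX2) (h4 : S_FLOWM2) (h5 : S_FRAME3)
    (h6 : S_MARK3) : S_COUNT3 := by
  obtain ⟨ε', CL, hε', hCL, hloc⟩ := h1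
  obtain ⟨CM, hCM, hmol⟩ := h2
  obtain ⟨ε, hεe⟩ : ∃ ε : ℝ, ε = ε' / 2 := ⟨_, rfl⟩
  have hε : 0 < ε := by rw [hεe]; positivity
  refine ⟨9 + CM + 3 * 4096 * 64 / ε + 1 / ε, by positivity, ?_⟩
  intro T κ E F O u p hκ hE hF hsol r hr hr1 hrT hκr hFr S hS hO hsep
  have hFr2 : r ^ 3 * F ≤ ε := by
    have h0 : 1 / ε * (r ^ 3 * F) ≤ 1 := by
      refine le_trans ?_ hFr
      have h00 : 0 ≤ F * r ^ 3 := by positivity
      have h01 : 0 ≤ 9 + CM + 3 * 4096 * 64 / ε := by positivity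
      have h02 : (9 + CM + 3 * 4096 * 64 / ε + 1 / ε) * F * r ^ 3
          = (9 + CM + 3 * 4096 * 64 / ε) * (F * r ^ 3) + 1 / ε * (r ^ 3 * F) := by ring
      rw [h02]
      linarith [mul_nonneg h01 h00]
    rw [one_div, inv_mul_le_iff₀ hε] at h0
    linarith
  have hrF0 : 0 ≤ r ^ 3 * F := by positivity
  have hr2 : 0 < r ^ 2 := by positivity
  have hsr0 : 0 < √r := Real.sqrt_pos.2 hr
  have hss : √r * √r = r := Real.mul_self_sqrt hr.le
  have hsr : √(r ^ 3) = r * √r := by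
    rw [show r ^ 3 = r ^ 2 * r by ring, Real.sqrt_mul (by positivity), Real.sqrt_sq hr.le]
  have hsolE : LSol T κ E ∅ u p :=
    { openO := isOpen_empty
      smooth_u := hsol.smooth_u
      smooth_p := hsol.smooth_p
      divfree := fun t _ x hx => absurd hx (Set.notMem_empty x)
      momentum := fun t _ x hx => absurd hx (Set.notMem_empty x)
      en_int := hsol.en_int
      en := hsol.en
      dv_int := hsol.dv_int
      dvb := hsol.dvb }
  obtain ⟨L, hgood⟩ := hmol T κ E ∅ u p hκ hE hsolE r hr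
  have hMr : CM * E / √(r ^ 3) * r ^ 2 = CM * E * √r := by
    rw [hsr, div_mul_eq_mul_div, div_eq_iff (by positivity)]
    calc CM * E * r ^ 2 = CM * E * (r * (√r * √r)) := by rw [hss]; ring
      _ = _ := by ring
  have hκ' : CM * κ / √(r ^ 3) * r ^ 2 ≤ 1 := by
    have e : CM * κ / √(r ^ 3) * r ^ 2 = CM * κ * √r := by
      rw [hsr, div_mul_eq_mul_div, div_eq_iff (by positivity)]
      calc CM * κ * r ^ 2 = CM * κ * (r * (√r * √r)) := by rw [hss]; ring
        _ = _ := by ring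
    rw [e]
    refine le_trans ?_ hκr
    have : 0 ≤ 3 * 4096 * 64 / ε := by positivity
    have : 0 ≤ 1 / ε := by positivity
    gcongr
    linarith
  set M := CM * E / √(r ^ 3) with hMdef
  have hM0 : 0 ≤ M := by positivity
  obtain ⟨δ, hδ0, hδ1, hδ2, hδ3⟩ : ∃ δ : ℝ, 0 < δ ∧ δ ≤ r ^ 2 / 32 ∧ δ ≤ r / 16 ∧ M * δ ≤ r / 16 := by
    refine ⟨min (r ^ 2 / 32) (r / 16 / (M + 1)), by positivity, min_le_left _ _, ?_, ?_⟩
    · refine (min_le_right _ _).trans (div_le_self (by positivity) (by linarith))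
    · calc M * min (r ^ 2 / 32) (r / 16 / (M + 1)) ≤ (M + 1) * (r / 16 / (M + 1)) := by
            apply mul_le_mul (by linarith) (min_le_right _ _) (by positivity) (by positivity)
        _ = r / 16 := by field_simp
  set Q := CL * (1 + √(2 * r ^ 2 * ((r ^ 3)⁻¹ * E ^ 2 + 1536 * M ^ 2))) with hQ
  have hsing : ∀ x : V, ∃ t : ℝ, ∃ y : V, x ∈ S → (t ∈ Ioo (T - δ) T ∧ y ∈ ball x δ ∧
      Q / r + M < ‖u t y‖) := by
    intro x
    by_cases hx : x ∈ S
    · obtain ⟨t, ht, y, hy, h⟩ := hS x hx δ hδ0 (Q / r + M)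
      exact ⟨t, y, fun _ => ⟨ht, hy, h⟩⟩
    · exact ⟨0, 0, fun h => absurd h hx⟩
  choose tx yx htx using hsing
  obtain ⟨s, hs1, hs2, hs3⟩ : ∃ s, T - δ < s ∧ s < T ∧ ∀ x ∈ S, tx x < s := by
    have e1 : ∀ᶠ s in 𝓝[<] T, s ∈ Ioo (T - δ) T := Ioo_mem_nhdsLT (by linarith)
    have e2 : ∀ᶠ s in 𝓝[<] T, ∀ x ∈ S, tx x < s := by
      rw [Finset.eventually_all]
      intro x hx
      filter_upwards [Ioo_mem_nhdsLT (htx x hx).1.2] with s hs
      exact hs.1
    obtain ⟨s, h1, h2⟩ := (e1.and e2).exists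
    exact ⟨s, h1.1, h1.2, h2⟩
  have hrs : r ^ 2 < s := by linarith
  have hα : 0 < s - r ^ 2 := by linarith
  have hαβ : s - r ^ 2 < s := by linarith
  obtain ⟨X, hX⟩ := h3 T M L _ (mol r u) hgood (s - r ^ 2) s hα hαβ hs2
  have hmeas := h4 T M L _ (mol r u) hgood (s - r ^ 2) s hα hαβ hs2 X hX
  have hMb : ∀ t ∈ Ioo (s - r ^ 2) s, ∀ x, ‖mol r u t x‖ ≤ M := fun t ht x =>
    hgood.bd t ⟨hα.trans ht.1, ht.2.trans hs2⟩ x
  have hmark := h6 T κ E F O u p hsol r s hr hrs hs2 X _ hX.cont hmeas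
  have hexp : Real.exp (CM * κ / √(r ^ 3) * (s - (s - r ^ 2))) ≤ 3 := by
    rw [sub_sub_cancel]
    calc Real.exp (CM * κ / √(r ^ 3) * r ^ 2) ≤ Real.exp 1 := Real.exp_le_exp.2 hκ'
      _ ≤ 3 := by linarith [Real.exp_one_lt_d9]
  have hclaim : ∀ x ∈ S, ∀ z ∈ ball x (r / 8), ENNReal.ofReal (ε / r) ≤
      ∫⁻ t in Ioo (-1 : ℝ) 0, ∫⁻ y in ball (X (s + r ^ 2 * t) z) (8 * r) ∩ O,
          ENNReal.ofReal (gsq (u (s + r ^ 2 * t)) y) := by
    intro x hx z hz
    by_contra hlt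
    rw [not_le] at hlt
    have hz' : ‖z - x‖ < r / 8 := by rwa [mem_ball, dist_eq_norm] at hz
    have htube : ∀ t ∈ Ioo (s - r ^ 2) s, ball (X t z) (8 * r) ⊆ O := by
      intro t ht
      refine subset_trans ?_ (hO x hx)
      intro y hy
      rw [mem_ball, dist_eq_norm] at hy ⊢
      have hsp : ‖X s z - X t z‖ ≤ M * (s - t) := speed hX hMb ht z
      rw [hX.fin z] at hsp
      have hsp2 : ‖z - X t z‖ ≤ CM * E * √r := by
        rw [← hMr]
        exact hsp.trans (mul_le_mul_of_nonneg_left (by linarith [ht.1]) hM0)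
      have h1 : ‖y - x‖ < 8 * r + CM * E * √r + r / 8 := by
        calc ‖y - x‖ = ‖(y - X t z) - (z - X t z) + (z - x)‖ := by congr 1; abel
          _ ≤ ‖(y - X t z) - (z - X t z)‖ + ‖z - x‖ := norm_add_le _ _
          _ ≤ ‖y - X t z‖ + ‖z - X t z‖ + ‖z - x‖ := by gcongr; exact norm_sub_le _ _
          _ < _ := by linarith
      have hA : 0 ≤ 3 * 4096 * 64 / ε := by positivity
      have hA' : 0 ≤ 1 / ε := by positivity
      have hB : 0 ≤ E * √r := by positivity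
      nlinarith [mul_nonneg hA hr.le, mul_nonneg hA hB, mul_nonneg hCM.le hr.le,
        mul_nonneg hA' hr.le, mul_nonneg hA' hB]
    have hsm : ContDiffOn ℝ ∞ (fun τ => X τ z) (Ioo (s - r ^ 2) s) := hX.smooth z
    have hode : ∀ t ∈ Ioo (s - r ^ 2) s,
        HasDerivAt (fun τ => X τ z) (mol r u t ((fun τ => X τ z) t)) t := fun t ht => hX.ode z t ht
    have hL2 := h5 T κ E F O u p hF hsol r s hr hr1 hrs hs2 (fun τ => X τ z) hsm hode htube
    have htime : ∀ t ∈ Ioo (-1 : ℝ) 0, s + r ^ 2 * t ∈ Ioo (s - r ^ 2) s := by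
      intro t ht
      have a1 : r ^ 2 * (-1) < r ^ 2 * t := (mul_lt_mul_iff_right₀ hr2).2 ht.1
      have a2 : r ^ 2 * t < r ^ 2 * 0 := (mul_lt_mul_iff_right₀ hr2).2 ht.2
      constructor <;> linarith
    have hT' : ∀ t ∈ Ioo (-1 : ℝ) 0, s + r ^ 2 * t ∈ Ioo 0 T := fun t ht =>
      ⟨hα.trans (htime t ht).1, (htime t ht).2.trans hs2⟩
    have hcd : ∀ t ∈ Ioo (-1 : ℝ) 0, ContDiff ℝ ∞ (u (s + r ^ 2 * t)) := fun t ht =>
      cd_slice hsol.smooth_u (hT' t ht)
    have hB0 : ∀ t, 0 ≤ B2 0 8 (frv r s (fun τ => X τ z) u t) := fun t =>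
      setIntegral_nonneg measurableSet_ball fun w _ => gsq_nonneg _ w
    have hBl : ∀ t ∈ Ioo (-1 : ℝ) 0, ENNReal.ofReal (B2 0 8 (frv r s (fun τ => X τ z) u t))
        = ENNReal.ofReal r * ∫⁻ y in ball (X (s + r ^ 2 * t) z) (8 * r) ∩ O,
          ENNReal.ofReal (gsq (u (s + r ^ 2 * t)) y) := by
      intro t ht
      rw [inter_eq_self_of_subset_left (htube _ (htime t ht)), B2_frv hr (hcd t ht),
        ENNReal.ofReal_mul hr.le, mul_comm r 8]
      congr 1
      exact ofReal_integral_eq_lintegral_ofReal (int_ball (gsq_cont (hcd t ht)) _ _)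
        (Eventually.of_forall fun y => gsq_nonneg _ y)
    have hcont : ContinuousOn (fun t => B2 0 8 (frv r s (fun τ => X τ z) u t)) (Ioo (-1) 0) :=
      ((W335.MD.t_CT Pool.Agent.W333.MD.t_PCONT (-1) 0 _ hL2.smooth_v).1 0 8).2
    have hlint : ∫⁻ t in Ioo (-1 : ℝ) 0, ENNReal.ofReal (B2 0 8 (frv r s (fun τ => X τ z) u t))
        < ENNReal.ofReal ε := by
      rw [setLIntegral_congr_fun measurableSet_Ioo hBl, lintegral_const_mul' _ _ ENNReal.ofReal_ne_top]
      have : ENNReal.ofReal ε = ENNReal.ofReal r * ENNReal.ofReal (ε / r) := by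
        rw [← ENNReal.ofReal_mul hr.le]
        congr 1
        field_simp
      rw [this]
      exact ENNReal.mul_lt_mul_right (by simpa using hr) ENNReal.ofReal_ne_top hlt
    have hInt : IntegrableOn (fun t => B2 0 8 (frv r s (fun τ => X τ z) u t)) (Ioo (-1) 0) := by
      refine ⟨hcont.aestronglyMeasurable measurableSet_Ioo, ?_⟩
      rw [hasFiniteIntegral_iff_ofReal (Eventually.of_forall hB0)]
      exact hlint.trans ENNReal.ofReal_lt_top
    have hle : ∫ t in Ioo (-1 : ℝ) 0, B2 0 8 (frv r s (fun τ => X τ z) u t) ≤ ε := by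
      rw [← ofReal_integral_eq_lintegral_ofReal hInt (Eventually.of_forall hB0)] at hlint
      exact ((ENNReal.ofReal_lt_ofReal_iff hε).1 hlint).le
    have hl := hloc _ _ _ hrF0 hL2 hInt (by linarith)
    have hl' : ∀ t ∈ Ioo (-1 / 16 : ℝ) 0, ∀ w ∈ ball (0 : V) (1 / 4), ∀ i,
        |frv r s (fun τ => X τ z) u t w i| ≤ Q := by
      intro t ht w hw i
      refine (hl t ht w hw i).trans ?_
      have ht' : t ∈ Ioo (-1 : ℝ) 0 := ⟨by linarith [ht.1], ht.2⟩
      have hA2 : A2 0 4 (frv r s (fun τ => X τ z) u t)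
          ≤ 2 * r ^ 2 * ((r ^ 3)⁻¹ * E ^ 2 + 1536 * M ^ 2) := by
        refine A2_bd (hcd t ht') (hsol.en_int _ (hT' t ht')) (hsol.en _ (hT' t ht')) hr
          (X (s + r ^ 2 * t) z) (fun i => deriv (fun τ => X τ z i) (s + r ^ 2 * t)) ?_
        intro i
        have hd : HasDerivAt (fun τ => X τ z i) (mol r u (s + r ^ 2 * t) (X (s + r ^ 2 * t) z) i)
            (s + r ^ 2 * t) := (hasDerivAt_pi.1 (hX.ode z _ (htime t ht'))) i
        rw [hd.deriv]
        exact (norm_le_pi_norm (mol r u _ (X _ z)) i).trans (hMb _ (htime t ht') _)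
      rw [hQ]
      gcongr
    obtain ⟨ht, hy, hbig⟩ := htx x hx
    have := point (CL := Q) hr hM0 hX hMb hδ1 hδ2 hδ3 (t := tx x) (by linarith [ht.1]) (hs3 x hx)
      hz hy hl'
    linarith
  have hpack := pack hr S hsep hclaim
  set J := ∫⁻ τ in Ioo (T - 2 * r ^ 2) T, ∫⁻ y in O, ENNReal.ofReal (gsq (u τ) y) with hJ
  have hmono : ∫⁻ τ in Ioo (s - r ^ 2) s, ∫⁻ y in O, ENNReal.ofReal (gsq (u τ) y) ≤ J :=
    lintegral_mono_set (Ioo_subset_Ioo (by linarith) hs2.le)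
  have hfin : S.card * (ENNReal.ofReal (ε / r) * ENNReal.ofReal ((r / 4) ^ 3))
      ≤ ENNReal.ofReal 3 * ENNReal.ofReal (4096 * r) * J := by
    refine (hpack.trans hmark).trans ?_
    gcongr
  have hk : ENNReal.ofReal (64 / (ε * r)) * (S.card * (ENNReal.ofReal (ε / r) *
      ENNReal.ofReal ((r / 4) ^ 3))) ≤ ENNReal.ofReal (64 / (ε * r)) *
        (ENNReal.ofReal 3 * ENNReal.ofReal (4096 * r) * J) := by gcongr
  calc ENNReal.ofReal (S.card * r) = ENNReal.ofReal (64 / (ε * r)) *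
        (S.card * (ENNReal.ofReal (ε / r) * ENNReal.ofReal ((r / 4) ^ 3))) := by
        rw [← ENNReal.ofReal_mul (by positivity), ← ENNReal.ofReal_natCast S.card,
          ← ENNReal.ofReal_mul (by positivity), ← ENNReal.ofReal_mul (by positivity)]
        congr 1
        field_simp
        ring
    _ ≤ _ := hk
    _ = ENNReal.ofReal (3 * 4096 * 64 / ε) * J := by
        rw [← mul_assoc, ← ENNReal.ofReal_mul (by positivity), ← ENNReal.ofReal_mul (by positivity)]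
        congr 2
        field_simp
    _ ≤ _ := by
        have : 0 ≤ 1 / ε := by positivity
        gcongr
        linarith

end Pool.Agent.W108.MH
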